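import Mathlib
import Pool.Agent.Helper74.KV.K12

set_option autoImplicit false

namespace Pool.Agent.Results.MP_2688e8_nt.KhintchineOnVerticalLines

open MeasureTheory Pool.Agent.Helper74.KV

/-! ### The objects of the problem -/

/-- `‖x‖`: the distance from the real number `x` to the nearest integer. -/
noncomputable def nearInt (x : ℝ) : ℝ := |x - round x|

/-- `W(n, ψ)`: the points `x` of the unit cube for which `max_i ‖q x_i‖ < ψ(q)` holds for
infinitely many positive integers `q`. -/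
def W (n : ℕ) (ψ : ℕ+ → ℝ) : Set (Fin n → ℝ) :=
  {x | (∀ i, x i ∈ Set.Icc (0 : ℝ) 1) ∧
    {q : ℕ+ | ∀ i, nearInt (((q : ℕ) : ℝ) * x i) < ψ q}.Infinite}

/-! ### Sanity checks -/

/-- `nearInt x` is the least distance from `x` to an integer. -/
theorem nearInt_isLeast (x : ℝ) : IsLeast (Set.range (fun m : ℤ => |x - m|)) (nearInt x) :=
  ⟨⟨round x, rfl⟩, by rintro _ ⟨m, rfl⟩; exact round_le x m⟩

/-- the condition in `W` is a condition on the maximum of the `‖q x_i‖` -/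
theorem forall_iff_max (n : ℕ) (x : Fin (n + 1) → ℝ) (q : ℕ+) (t : ℝ) :
    (∀ i, nearInt (((q : ℕ) : ℝ) * x i) < t) ↔
      Finset.univ.sup' Finset.univ_nonempty (fun i => nearInt (((q : ℕ) : ℝ) * x i)) < t := by
  rw [Finset.sup'_lt_iff]
  simp

/-- membership in `W 2 ψ`, spelled out for a point `(α, β)` -/
theorem mem_W_two (ψ : ℕ+ → ℝ) (α β : ℝ) : ![α, β] ∈ W 2 ψ ↔
    α ∈ Set.Icc (0 : ℝ) 1 ∧ β ∈ Set.Icc (0 : ℝ) 1 ∧
      {q : ℕ+ | nearInt (((q : ℕ) : ℝ) * α) < ψ q ∧ nearInt (((q : ℕ) : ℝ) * β) < ψ q}.Infinite := by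
  unfold W
  simp only [Set.mem_ofPred_eq, Fin.forall_fin_two, Matrix.cons_val_zero, Matrix.cons_val_one]
  tauto

/-! ### Transfer from the circle -/

/-- extension of an approximation function to index `0` -/
noncomputable def ext (ψ : ℕ+ → ℝ) (q : ℕ) : ℝ := ψ ⟨max q 1, by omega⟩

theorem ext_coe (ψ : ℕ+ → ℝ) (q : ℕ+) : ext ψ (q : ℕ) = ψ q := by
  unfold ext
  congr 1
  apply PNat.eq
  have := q.pos
  show max (q : ℕ) 1 = q
  omega

theorem norm_smul_coe (q : ℕ) (x : ℝ) : ‖q • (x : UnitAddCircle)‖ = nearInt ((q : ℝ) * x) := by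
  rw [← AddCircle.coe_nsmul, nsmul_eq_mul, UnitAddCircle.norm_eq]
  rfl

theorem mem_WW_iff (ψ : ℕ+ → ℝ) (α β : ℝ) : (β : UnitAddCircle) ∈ WW (ext ψ) (α : UnitAddCircle) ↔
    {q : ℕ+ | nearInt (((q : ℕ) : ℝ) * α) < ψ q ∧ nearInt (((q : ℕ) : ℝ) * β) < ψ q}.Infinite := by
  have himg : (fun q : ℕ+ => (q : ℕ)) ''
      {q : ℕ+ | nearInt (((q : ℕ) : ℝ) * α) < ψ q ∧ nearInt (((q : ℕ) : ℝ) * β) < ψ q}
      = {q : ℕ | 0 < q ∧ ‖q • (α : UnitAddCircle)‖ < ext ψ q ∧ ‖q • (β : UnitAddCircle)‖ < ext ψ q} := by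
    ext q
    simp only [Set.mem_image, Set.mem_ofPred_eq, norm_smul_coe]
    constructor
    · rintro ⟨p, ⟨h1, h2⟩, rfl⟩
      exact ⟨p.pos, by rw [ext_coe]; exact h1, by rw [ext_coe]; exact h2⟩
    · rintro ⟨h0, h1, h2⟩
      obtain ⟨p, rfl⟩ : ∃ p : ℕ+, (p : ℕ) = q := ⟨⟨q, h0⟩, rfl⟩
      rw [ext_coe] at h1 h2
      exact ⟨p, ⟨h1, h2⟩, rfl⟩
  unfold WW
  rw [Set.mem_ofPred_eq, ← himg]
  exact Set.infinite_image_iff PNat.coe_injective.injOn

theorem not_summable_ext (ψ : ℕ+ → ℝ) (h : ¬ Summable (fun q : ℕ+ => ψ q ^ 2)) :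
    ¬ Summable (fun q : ℕ => ext ψ q ^ 2) := by
  intro hs
  apply h
  have := hs.comp_injective PNat.coe_injective
  refine this.congr (fun q => ?_)
  simp only [Function.comp, ext_coe]

/-- **Answer to Q1.** For every monotonic positive `ψ` on the positive integers with
`∑ ψ(q)^2 = ∞` and every `α ∈ [0, 1]`, the fibre of `W(2, ψ)` over `α` has Lebesgue measure `1`. -/
theorem result : ∀ ψ : ℕ+ → ℝ, (∀ q, 0 < ψ q) → (Monotone ψ ∨ Antitone ψ) →
    ¬ Summable (fun q : ℕ+ => ψ q ^ 2) → ∀ α ∈ Set.Icc (0 : ℝ) 1,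
      volume {β : ℝ | ![α, β] ∈ W 2 ψ} = 1 := by
  intro ψ hpos hmon hdiv α hα
  have hmono : ∀ p q : ℕ, p ≤ q → (⟨max p 1, by omega⟩ : ℕ+) ≤ ⟨max q 1, by omega⟩ := by
    intro p q hpq
    show max p 1 ≤ max q 1
    omega
  have hmon' : Monotone (ext ψ) ∨ Antitone (ext ψ) := by
    rcases hmon with h | h
    · exact Or.inl (fun p q hpq => h (hmono p q hpq))
    · exact Or.inr (fun p q hpq => h (hmono p q hpq))
  have hcirc := circle_all (ext ψ) (fun q => hpos _) hmon' (not_summable_ext ψ hdiv) α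
  have hae := (AddCircle.measurePreserving_mk 1 0).quasiMeasurePreserving.ae hcirc
  rw [zero_add, ae_restrict_iff' measurableSet_Ioc] at hae
  have hset : {β : ℝ | ![α, β] ∈ W 2 ψ}
      = {β : ℝ | β ∈ Set.Icc (0 : ℝ) 1 ∧ (β : UnitAddCircle) ∈ WW (ext ψ) (α : UnitAddCircle)} := by
    ext β
    simp only [Set.mem_ofPred_eq, mem_W_two, mem_WW_iff]
    tauto
  rw [hset]
  apply le_antisymm
  · calc volume {β : ℝ | β ∈ Set.Icc (0 : ℝ) 1 ∧ (β : UnitAddCircle) ∈ WW (ext ψ) (α : UnitAddCircle)}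
        ≤ volume (Set.Icc (0 : ℝ) 1) := measure_mono (fun β hβ => hβ.1)
      _ = 1 := by simp
  · calc (1 : ENNReal) = volume (Set.Ioc (0 : ℝ) 1) := by simp
      _ ≤ volume {β : ℝ | β ∈ Set.Icc (0 : ℝ) 1 ∧ (β : UnitAddCircle) ∈ WW (ext ψ) (α : UnitAddCircle)} := by
          apply measure_mono_ae
          filter_upwards [hae] with β hβ h1
          exact ⟨Set.Ioc_subset_Icc_self h1, hβ h1⟩

end Pool.Agent.Results.MP_2688e8_nt.KhintchineOnVerticalLines
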